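import Pool.Agent.Helper42.PW.Goals1
import Pool.Agent.Helper32.RD.VAL
import Pool.Agent.Helper40.RS.Gal

/-!
# Project PW, packet L_PRM: every prime above `p` is induced by an embedding
-/

set_option autoImplicit false

namespace Pool.Agent.Helper70.PW

open NumberField Polynomial Module IsDedekindDomain
open Pool.Agent.Helper42.PW Pool.Agent.Helper51.RP

/-- Two primes of the rational numbers above `p` are equal. -/
theorem rat_unique {p : ℕ} (hp : p.Prime) (v v' : HeightOneSpectrum (𝓞 ℚ))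
    (h : (p : 𝓞 ℚ) ∈ v.asIdeal) (h' : (p : 𝓞 ℚ) ∈ v'.asIdeal) : v = v' := by
  have h0 : (p : 𝓞 ℚ) ≠ 0 := Nat.cast_ne_zero.2 hp.ne_zero
  have h1 : Prime (p : 𝓞 ℚ) := by
    rw [← MulEquiv.prime_iff (Rat.ringOfIntegersEquiv : 𝓞 ℚ ≃* ℤ)]
    have h2 : (Rat.ringOfIntegersEquiv : 𝓞 ℚ ≃* ℤ) (p : 𝓞 ℚ) = (p : ℤ) :=
      map_natCast Rat.ringOfIntegersEquiv p
    rw [h2]
    exact Nat.prime_iff_prime_int.1 hp
  have h3 : (Ideal.span {(p : 𝓞 ℚ)}).IsPrime := (Ideal.span_singleton_prime h0).2 h1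
  have h4 : Ideal.span {(p : 𝓞 ℚ)} ≠ ⊥ := by
    rw [Ne, Ideal.span_singleton_eq_bot]
    exact h0
  have h5 : (Ideal.span {(p : 𝓞 ℚ)}).IsMaximal := h3.isMaximal h4
  have h6 : ∀ w : HeightOneSpectrum (𝓞 ℚ), (p : 𝓞 ℚ) ∈ w.asIdeal →
      Ideal.span {(p : 𝓞 ℚ)} = w.asIdeal := by
    intro w hw
    exact h5.eq_of_le w.isPrime.ne_top ((Ideal.span_singleton_le_iff_mem _).2 hw)
  exact HeightOneSpectrum.ext ((h6 v h).symm.trans (h6 v' h'))

theorem exists_above {F E : Type} [Field F] [NumberField F] [Field E] [NumberField E]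
    [Algebra F E] (v : HeightOneSpectrum (𝓞 F)) : ∃ w : HeightOneSpectrum (𝓞 E), Above w v := by
  have hv : v.asIdeal.IsMaximal := v.isMaximal
  obtain ⟨P, hP, hl⟩ := Ideal.exists_maximal_ideal_liesOver_of_isIntegral (S := 𝓞 E) v.asIdeal
  exact ⟨⟨P, hP.isPrime, Ideal.ne_bot_of_liesOver_of_ne_bot v.ne_bot P⟩, hl.over.symm⟩

theorem val_above {F E : Type} [Field F] [NumberField F] [Field E] [NumberField E] [Algebra F E]
    {w : HeightOneSpectrum (𝓞 E)} {W : HeightOneSpectrum (𝓞 F)} (h : Above w W) :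
    ∃ e : ℕ, e ≠ 0 ∧ ∀ x : F, w.valuation E (algebraMap F E x) = W.valuation F x ^ e := by
  have : w.asIdeal.LiesOver W.asIdeal := ⟨h.symm⟩
  exact ⟨W.asIdeal.ramificationIdx' w.asIdeal,
    Ideal.IsDedekindDomain.ramificationIdx'_ne_zero_of_liesOver w.asIdeal W.ne_bot,
    fun x => (HeightOneSpectrum.valuation_liesOver (K := F) E W w x).symm⟩

/-- The prime above `p` in the ring of integers. -/
theorem mem_iff {F : Type} [Field F] [NumberField F] (w : HeightOneSpectrum (𝓞 F)) (n : ℕ) :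
    w.valuation F (n : F) < 1 ↔ (n : 𝓞 F) ∈ w.asIdeal := by
  have h1 : (n : F) = algebraMap (𝓞 F) F (n : 𝓞 F) := (map_natCast (algebraMap (𝓞 F) F) n).symm
  rw [h1, HeightOneSpectrum.valuation_lt_one_iff_mem]

theorem exists_galois_gen (K₀ F : Type) [Field K₀] [CharZero K₀] [Field F] [Algebra K₀ F]
    [FiniteDimensional K₀ F] : ∃ (N : Type) (_ : Field N) (_ : Algebra K₀ N) (_ : Algebra F N),
      FiniteDimensional K₀ N ∧ IsGalois K₀ N := by
  let φ : F →ₐ[K₀] AlgebraicClosure K₀ := IsAlgClosed.lift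
  have h0 : Normal K₀ (AlgebraicClosure K₀) := IsAlgClosure.normal K₀ (AlgebraicClosure K₀)
  have hf : FiniteDimensional K₀ (IntermediateField.normalClosure K₀ F (AlgebraicClosure K₀)) :=
    inferInstance
  have hn : Normal K₀ (IntermediateField.normalClosure K₀ F (AlgebraicClosure K₀)) := inferInstance
  have hg : IsGalois K₀ (IntermediateField.normalClosure K₀ F (AlgebraicClosure K₀)) := ⟨⟩
  let ψ : F →ₐ[K₀] (IntermediateField.normalClosure K₀ F (AlgebraicClosure K₀)) :=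
    (_root_.normalClosure.algHomEquiv K₀ F (AlgebraicClosure K₀)).symm φ
  exact ⟨(IntermediateField.normalClosure K₀ F (AlgebraicClosure K₀)), inferInstance,
    inferInstance, (ψ : F →+* _).toAlgebra, hf, hg⟩

theorem exists_galois (F : Type) [Field F] [NumberField F] :
    ∃ (N : Type) (_ : Field N) (_ : NumberField N) (_ : Algebra F N), IsGalois ℚ N := by
  obtain ⟨N, i1, i2, i3, hf, hg⟩ := exists_galois_gen ℚ F
  have hc : CharZero N := charZero_of_injective_algebraMap (algebraMap ℚ N).injective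
  have he : i2 = DivisionRing.toRatAlgebra := Subsingleton.elim _ _
  subst he
  have hN : NumberField N := { to_charZero := inferInstance, to_finiteDimensional := hf }
  exact ⟨N, i1, hN, i3, hg⟩

/-- The valuation of the prime of an embedding. -/
theorem le_one_iff {p : ℕ} [Fact p.Prime] {k : Type} [NormedField k] [NormedAlgebra ℚ_[p] k]
    [IsUltrametricDist k] {N : Type} [Field N] [NumberField N] (τ : N →+* k) (z : N) :
    (Pool.Agent.Helper32.RDV.wt p τ).valuation N z ≤ 1 ↔ ‖τ z‖ ≤ 1 := by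
  constructor
  · exact Pool.Agent.Helper32.RDV.norm_le_one_of_val τ
  · intro h
    by_contra hcon
    push Not at hcon
    have hz : z ≠ 0 := by
      rintro rfl
      rw [map_zero] at hcon
      exact absurd hcon (by simp)
    have h1 : (Pool.Agent.Helper32.RDV.wt p τ).valuation N z⁻¹ ≤ 1 := by
      rw [map_inv₀]
      exact inv_le_one_of_one_le₀ hcon.le
    have h2 := Pool.Agent.Helper32.RDV.norm_le_one_of_val τ h1
    rw [map_inv₀, norm_inv] at h2
    have h0 : 0 < ‖τ z‖ := norm_pos_iff.2 (by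
      rw [Ne, map_eq_zero]
      exact hz)
    have h3 : 1 ≤ ‖τ z‖ := by
      rw [inv_le_one₀ h0] at h2
      exact h2
    have h4 := Pool.Agent.Helper32.RDV.val_of_norm (p := p) τ (le_antisymm h h3)
    rw [h4] at hcon
    exact lt_irrefl _ hcon

theorem l_prm : Pool.Agent.Helper42.PW.L_PRM := by
  intro p hp k _ _ _ hj F _ _ W hW
  obtain ⟨N, _, _, _, hgal⟩ := exists_galois F
  obtain ⟨j⟩ := hj
  have halg : Algebra.IsAlgebraic ℚ N := inferInstance
  let τ₀ : N →+* k := j.comp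
    ((IsAlgClosed.lift : N →ₐ[ℚ] AlgebraicClosure ℚ) : N →+* AlgebraicClosure ℚ)
  obtain ⟨Q, hQ⟩ := exists_above (E := N) W
  obtain ⟨e, he0, he⟩ := val_above hQ
  have hQp : Q.valuation N (p : N) < 1 := by
    have h1 := he (p : F)
    rw [map_natCast] at h1
    rw [h1]
    exact pow_lt_one₀ zero_le hW he0
  have hbel : ∀ w : HeightOneSpectrum (𝓞 N), w.valuation N (p : N) < 1 →
      (p : 𝓞 ℚ) ∈ (Pool.Agent.Helper40.RS.bel ℚ w).asIdeal := by
    intro w hw
    rw [mem_iff] at hw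
    change algebraMap (𝓞 ℚ) (𝓞 N) (p : 𝓞 ℚ) ∈ w.asIdeal
    rw [map_natCast]
    exact hw
  have hbe : Pool.Agent.Helper40.RS.bel ℚ (Pool.Agent.Helper32.RDV.wt p τ₀) =
      Pool.Agent.Helper40.RS.bel ℚ Q :=
    rat_unique hp.out _ _ (hbel _ (Pool.Agent.Helper32.RDV.wt_p τ₀)) (hbel _ hQp)
  obtain ⟨g, hg⟩ := Pool.Agent.Helper40.RS.conj_of_bel (K := ℚ) _ _ hbe
  let τ : F →+* k := (τ₀.comp (g : N →+* N)).comp (algebraMap F N)
  have hle : ∀ x : F, W.valuation F x ≤ 1 ↔ ‖τ x‖ ≤ 1 := by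
    intro x
    change _ ↔ ‖τ₀ (g (algebraMap F N x))‖ ≤ 1
    rw [← le_one_iff (p := p), hg, he]
    exact (pow_le_one_iff_of_nonneg zero_le he0).symm
  refine ⟨τ, fun x y => ?_⟩
  by_cases hy : y = 0
  · subst hy
    rw [map_zero, map_zero, norm_zero, norm_le_zero_iff, map_eq_zero, le_zero_iff,
      Valuation.zero_iff]
  · have hy1 : W.valuation F y ≠ 0 := (Valuation.ne_zero_iff _).2 hy
    have hy2 : 0 < ‖τ y‖ := norm_pos_iff.2 (by
      rw [Ne, map_eq_zero]
      exact hy)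
    have h1 := hle (x / y)
    rw [map_div₀, map_div₀, norm_div, div_le_one hy2, div_le_one₀ (zero_lt_iff.2 hy1)] at h1
    exact h1

end Pool.Agent.Helper70.PW
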